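import Mathlib

set_option autoImplicit false
open Set Metric Topology MeasureTheory

namespace Pool.Agent.H97.MPb892c7

/-- an orthonormal set in a separable inner product space is countable -/
lemma countable_of_orthonormal {H : Type*} [NormedAddCommGroup H] [InnerProductSpace ℝ H]
    [SecondCountableTopology H] {ι : Type*} {v : ι → H} (hv : Orthonormal ℝ v) : Countable ι := by
  -- balls of radius 1/2 around `v i` are disjoint
  have hd : ∀ i j, i ≠ j → 1 ≤ ‖v i - v j‖ := by
    intro i j hij
    have h1 : ‖v i - v j‖ ^ 2 = 2 := by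
      rw [@norm_sub_sq_real, hv.1 i, hv.1 j, hv.2 hij]
      norm_num
    nlinarith [norm_nonneg (v i - v j)]
  have hp : Pairwise (Function.onFun Disjoint fun i => ball (v i) (1 / 2)) := by
    intro i j hij
    rw [Function.onFun, Set.disjoint_left]
    intro z hz1 hz2
    rw [mem_ball, dist_eq_norm] at hz1 hz2
    have := hd i j hij
    have h3 : ‖v i - v j‖ ≤ ‖z - v j‖ + ‖z - v i‖ := by
      have : v i - v j = (z - v j) - (z - v i) := by abel
      rw [this]; exact norm_sub_le _ _
    linarith
  have hc : (univ : Set ι).Countable := by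
    refine Set.PairwiseDisjoint.countable_of_isOpen (s := fun i => ball (v i) (1 / 2))
      (a := univ) ?_ (fun i _ => isOpen_ball) (fun i _ => ⟨v i, mem_ball_self (by norm_num)⟩)
    intro i _ j _ hij
    exact hp hij
  exact Set.countable_univ_iff.mp hc

/-- separable Hilbert spaces embed isometrically in `ℓ²` -/
theorem exists_isometry_l2 (H : Type*) [NormedAddCommGroup H] [InnerProductSpace ℝ H]
    [CompleteSpace H] [SecondCountableTopology H] :
    Nonempty (H →ₗᵢ[ℝ] lp (fun _ : ℕ => ℝ) 2) := by
  obtain ⟨w, b, hb⟩ := exists_hilbertBasis ℝ H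
  have hw : Countable w := countable_of_orthonormal b.orthonormal
  obtain ⟨e, he⟩ := exists_injective_nat w
  -- orthonormal family in ℓ²
  have hV : OrthogonalFamily ℝ (fun _ : w => ℝ)
      (fun i => LinearIsometry.toSpanSingleton ℝ (lp (fun _ : ℕ => ℝ) 2)
        (v := lp.single 2 (e i) (1 : ℝ)) (by
          rw [lp.norm_single (by norm_num)]; simp)) := by
    intro i j hij a c
    simp only [LinearIsometry.toSpanSingleton_apply]
    rw [inner_smul_left, inner_smul_right, lp.inner_single_left]
    have : e i ≠ e j := fun h => hij (he h)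
    simp [lp.single_apply, this]
  exact ⟨hV.linearIsometry.comp b.repr.toLinearIsometry⟩

lemma lp_hasSum_sq (a : lp (fun _ : ℕ => ℝ) 2) : HasSum (fun k => (a k) ^ 2) (‖a‖ ^ 2) := by
  have h := lp.hasSum_norm (p := 2) (by norm_num) a
  simpa using h

/-- assembling countably many coordinate families into one `ℓ²`-valued map -/
theorem assemble {V ι : Type*} [Countable ι] [Nonempty V]
    (c : ι → V → ℕ → ℝ) (d : ι → V → V → ℝ)
    (hc : ∀ i u v, HasSum (fun k => (c i u k - c i v k) ^ 2) (d i u v))
    (hs : ∀ u v, Summable fun i => d i u v) :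
    ∃ f : V → lp (fun _ : ℕ => ℝ) 2, ∀ u v, ‖f u - f v‖ ^ 2 = ∑' i, d i u v := by
  classical
  obtain ⟨o⟩ := ‹Nonempty V›
  have hprod : ∀ u v, HasSum (fun p : ι × ℕ => (c p.1 u p.2 - c p.1 v p.2) ^ 2)
      (∑' i, d i u v) := by
    intro u v
    have h1 : Summable (fun p : ι × ℕ => (c p.1 u p.2 - c p.1 v p.2) ^ 2) := by
      rw [summable_prod_of_nonneg (fun p => sq_nonneg _)]
      refine ⟨fun i => (hc i u v).summable, ?_⟩
      have : (fun i => ∑' k, (c i u k - c i v k) ^ 2) = fun i => d i u v :=
        funext fun i => (hc i u v).tsum_eq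
      simpa [this] using hs u v
    have h2 : ∑' p : ι × ℕ, (c p.1 u p.2 - c p.1 v p.2) ^ 2 = ∑' i, d i u v := by
      rw [h1.tsum_prod]
      exact tsum_congr fun i => (hc i u v).tsum_eq
    rw [← h2]
    exact h1.hasSum
  obtain ⟨e, he⟩ := exists_injective_nat (ι × ℕ)
  -- coordinates
  let g : V → ℕ → ℝ := fun u m => Function.extend e (fun p : ι × ℕ => c p.1 u p.2 - c p.1 o p.2) 0 m
  have hg : ∀ u v, HasSum (fun m => (g u m - g v m) ^ 2) (∑' i, d i u v) := by
    intro u v
    have h0 : ∀ m, m ∉ Set.range e → (g u m - g v m) ^ 2 = 0 := by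
      intro m hm
      have hm' : ¬ ∃ a, e a = m := fun ⟨a, ha⟩ => hm ⟨a, ha⟩
      simp [g, Function.extend_apply' _ _ _ hm']
    rw [← he.hasSum_iff h0]
    have : (fun m => (g u m - g v m) ^ 2) ∘ e =
        fun p : ι × ℕ => (c p.1 u p.2 - c p.1 v p.2) ^ 2 := by
      funext p
      simp only [g, Function.comp_apply, he.extend_apply]
      ring
    rw [this]
    exact hprod u v
  have hmem : ∀ u, Memℓp (g u) 2 := by
    intro u
    rw [memℓp_gen_iff (by norm_num)]
    have h0 : g o = 0 := by
      funext m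
      by_cases hm : ∃ a, e a = m
      · obtain ⟨a, rfl⟩ := hm
        simp [g, he.extend_apply]
      · simp [g, Function.extend_apply' _ _ _ hm]
    have := (hg u o).summable
    simpa [h0] using this
  refine ⟨fun u => ⟨g u, hmem u⟩, fun u v => ?_⟩
  have h1 := lp_hasSum_sq ((⟨g u, hmem u⟩ : lp (fun _ : ℕ => ℝ) 2) - ⟨g v, hmem v⟩)
  have h2 := hg u v
  exact h1.unique h2

end Pool.Agent.H97.MPb892c7
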